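import Pool.Agent.N848.LT.Stm

/-!
# Project LT (helper848), NRM: norms in a square of fields (helper281)
-/

set_option autoImplicit false

open Module

namespace Pool.Agent.N281.LT.NRM

section quad

variable {E E' : Type} [Field E] [Field E'] [Algebra E E'] {m : E} {s : E'}

theorem indep (hs : s ^ 2 = algebraMap E E' m) (hm : ¬ IsSquare m) (a b : E)
    (h : algebraMap E E' a + algebraMap E E' b * s = 0) : a = 0 ∧ b = 0 := by
  have hb : b = 0 := by
    by_contra hb
    apply hm
    refine ⟨a / b, ?_⟩
    apply (algebraMap E E').injective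
    have hb' : algebraMap E E' b ≠ 0 := by
      intro h0
      exact hb ((map_eq_zero _).mp h0)
    have h1 : s = -(algebraMap E E' a / algebraMap E E' b) := by
      field_simp
      linear_combination h
    rw [← hs, h1, map_mul, map_div₀]
    ring
  subst hb
  rw [map_zero, zero_mul, add_zero] at h
  exact ⟨(map_eq_zero _).mp h, rfl⟩

theorem decomp (hs : s ^ 2 = algebraMap E E' m) (hm : ¬ IsSquare m) (h2 : finrank E E' = 2)
    (z : E') : ∃ a b : E, z = algebraMap E E' a + algebraMap E E' b * s := by
  have : FiniteDimensional E E' := FiniteDimensional.of_finrank_pos (by omega)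
  have hli : LinearIndependent E ![(1 : E'), s] := by
    rw [LinearIndependent.pair_iff]
    intro a b h
    apply indep hs hm a b
    rw [Algebra.smul_def, Algebra.smul_def, mul_one] at h
    exact h
  have hsp := hli.span_eq_top_of_card_eq_finrank' (by simp [h2])
  have hz : z ∈ Submodule.span E (Set.range ![(1 : E'), s]) := by
    rw [hsp]
    trivial
  rw [Matrix.range_cons, Matrix.range_cons, Matrix.range_empty, Set.union_empty,
    Set.singleton_union, Submodule.mem_span_pair] at hz
  obtain ⟨a, b, h⟩ := hz
  refine ⟨a, b, ?_⟩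
  rw [← h, Algebra.smul_def, Algebra.smul_def, mul_one]

end quad

/-- norms in a square of fields -/
theorem t_NRM : Pool.Agent.N848.LT.S_NRM := by
  intro F F' K K' _ _ _ _ _ _ _ _ _ _ _ _ _ _ _ m s hs hm h2 h2' hodd
  have c1 : ∀ x : F, algebraMap F' K' (algebraMap F F' x) = algebraMap F K' x := fun x =>
    (IsScalarTower.algebraMap_apply F F' K' x).symm
  have c2 : ∀ x : F, algebraMap K K' (algebraMap F K x) = algebraMap F K' x := fun x =>
    (IsScalarTower.algebraMap_apply F K K' x).symm
  have hm0 : m ≠ 0 := by
    rintro rfl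
    exact hm ⟨0, by simp⟩
  have hdim : finrank F' K' = finrank F K := by
    have e1 := finrank_mul_finrank F F' K'
    have e2 := finrank_mul_finrank F K K'
    rw [h2] at e1
    rw [h2'] at e2
    omega
  have hnsq : ¬ IsSquare (algebraMap F K m) := by
    rintro ⟨x, hx⟩
    apply hm
    have h3 : m ^ finrank F K = Algebra.norm F x * Algebra.norm F x := by
      rw [← Algebra.norm_algebraMap (S := K), hx, map_mul]
    obtain ⟨e, he⟩ := hodd
    refine ⟨Algebra.norm F x / m ^ e, ?_⟩
    rw [he] at h3
    have h4 : m ^ e ≠ 0 := pow_ne_zero _ hm0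
    rw [div_mul_div_comm, ← h3, eq_div_iff (mul_ne_zero h4 h4)]
    ring
  have hs' : (algebraMap F' K' s) ^ 2 = algebraMap K K' (algebraMap F K m) := by
    rw [← map_pow, hs, c1, c2]
  refine ⟨hdim, hnsq, ?_, ?_, ?_⟩
  · -- norms
    intro b
    classical
    let bas := finBasis F K
    let v : Fin (finrank F K) → K' := fun i => algebraMap K K' (bas i)
    have hK : ∀ a : K, algebraMap K K' a ∈ Submodule.span F' (Set.range v) := by
      intro a
      rw [← bas.sum_repr a, map_sum]
      refine Submodule.sum_mem _ fun i _ => ?_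
      have h3 : algebraMap K K' (bas.repr a i • bas i) =
          (algebraMap F F' (bas.repr a i)) • v i := by
        rw [Algebra.smul_def, Algebra.smul_def, map_mul, c1, c2]
      rw [h3]
      exact Submodule.smul_mem _ _ (Submodule.subset_span ⟨i, rfl⟩)
    have hsp : ⊤ ≤ Submodule.span F' (Set.range v) := by
      intro z _
      obtain ⟨a, c, rfl⟩ := decomp hs' hnsq h2' z
      refine Submodule.add_mem _ (hK a) ?_
      have h3 : algebraMap K K' c * algebraMap F' K' s = s • algebraMap K K' c := by
        rw [Algebra.smul_def, mul_comm]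
      rw [h3]
      exact Submodule.smul_mem _ _ (hK c)
    let bas' : Basis (Fin (finrank F K)) F' K' :=
      basisOfTopLeSpanOfCardEqFinrank v hsp (by rw [Fintype.card_fin, hdim])
    have hb' : ∀ i, bas' i = algebraMap K K' (bas i) := fun i => by
      have := congrFun (coe_basisOfTopLeSpanOfCardEqFinrank v hsp
        (by rw [Fintype.card_fin, hdim])) i
      exact this
    rw [Algebra.norm_eq_matrix_det bas', Algebra.norm_eq_matrix_det bas, RingHom.map_det]
    congr 1
    ext i j
    rw [Algebra.leftMulMatrix_eq_repr_mul, RingHom.mapMatrix_apply, Matrix.map_apply,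
      Algebra.leftMulMatrix_eq_repr_mul, hb', ← map_mul]
    have h4 : algebraMap K K' (b * bas j) =
        ∑ l, (algebraMap F F' (bas.repr (b * bas j) l)) • bas' l := by
      conv_lhs => rw [← bas.sum_repr (b * bas j), map_sum]
      refine Finset.sum_congr rfl fun l _ => ?_
      rw [Algebra.smul_def, Algebra.smul_def, map_mul, c1, c2, hb']
    rw [h4, Basis.repr_sum_self]
  · -- squares
    rintro x ⟨y, hy⟩
    obtain ⟨a, c, rfl⟩ := decomp hs hm h2 y
    have h3 : algebraMap F F' (a ^ 2 + c ^ 2 * m - x) + algebraMap F F' (2 * a * c) * s = 0 := by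
      rw [map_sub, map_add, map_mul, map_mul, map_mul, map_pow, map_pow, ← hs, hy, map_ofNat]
      ring
    obtain ⟨h4, h5⟩ := indep hs hm _ _ h3
    have h6 : x = a ^ 2 + c ^ 2 * m := by linear_combination -h4
    rcases mul_eq_zero.mp h5 with h7 | h7
    · have ha : a = 0 := by
        rcases mul_eq_zero.mp h7 with h8 | h8
        · exact absurd h8 two_ne_zero
        · exact h8
      right
      refine ⟨c * m, ?_⟩
      rw [h6, ha]
      ring
    · left
      refine ⟨a, ?_⟩
      rw [h6, h7]
      ring
  · -- transitivity
    intro f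
    rw [Algebra.norm_norm, Algebra.norm_norm]

end Pool.Agent.N281.LT.NRM
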